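import Mathlib

/-!
# The sample complexity of testing `H`-freeness of edge distributions

Let `H` have `h` edges and let `d = ex(n, H)`. Draw `M` samples with `M` of order `d log n / ε`. By a
union bound over the `H`-free edge sets, with high probability every `H`-free edge set disagrees
with `f` on more than `ε M / 4` of the `M` sample indices. Remove the indices of a maximal family of
index-disjoint copies of `H` among the positive samples: what remains is `H`-free, hence the family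
has at least `t = ε M / (4 h)` members. Now keep every index with probability `1 / Q`, where
`Q ^ h` is `t / 10`: one of the `t` disjoint copies survives with high probability. This uses about
`M / Q` samples, that is, of order `(d log n) ^ (1 - 1 / h)`.
-/

open Finset

namespace Pool.Agent.Results.MP_c13ef9_lc.HFreeSamples

/-! ### The definitions used in the statement -/

/-- `μ` is a probability distribution on `Λ`. -/
def IsDist {Λ : Type} [Fintype Λ] (μ : Λ → ℝ) : Prop := (∀ x, 0 ≤ μ x) ∧ ∑ x, μ x = 1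

/-- The probability that the randomized algorithm `A` accepts, when it receives `m` independent
samples from `μ` labelled by `f`. Here `A s` is the probability that the algorithm accepts when it
receives the sequence `s` of labelled samples. -/
noncomputable def accProb {Λ : Type} [Fintype Λ] {m : ℕ} (A : (Fin m → Λ × Bool) → ℝ)
    (μ : Λ → ℝ) (f : Λ → Bool) : ℝ :=
  ∑ x : Fin m → Λ, (∏ i, μ (x i)) * A fun i => (x i, f (x i))

/-- The function `f` is `ε`-far from the family `F` with respect to `μ`. -/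
def IsFar {Λ : Type} [Fintype Λ] (F : Set (Λ → Bool)) (μ : Λ → ℝ) (f : Λ → Bool) (ε : ℝ) : Prop :=
  ∀ g ∈ F, ε ≤ ∑ x, if f x ≠ g x then μ x else 0

/-- `A` is a tester for `F` with parameter `ε` which uses `m` samples. -/
def IsTester {Λ : Type} [Fintype Λ] (F : Set (Λ → Bool)) (ε : ℝ) {m : ℕ}
    (A : (Fin m → Λ × Bool) → ℝ) : Prop :=
  (∀ s, 0 ≤ A s ∧ A s ≤ 1) ∧ ∀ μ : Λ → ℝ, IsDist μ → ∀ f : Λ → Bool,
    (f ∈ F → 2 / 3 ≤ accProb A μ f) ∧ (IsFar F μ f ε → 2 / 3 ≤ 1 - accProb A μ f)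

/-- `m = sam(F, ε)`: the least positive number of samples which suffices. -/
def IsSam {Λ : Type} [Fintype Λ] (F : Set (Λ → Bool)) (ε : ℝ) (m : ℕ) : Prop :=
  IsLeast {k : ℕ | 0 < k ∧ ∃ A : (Fin k → Λ × Bool) → ℝ, IsTester F ε A} m

/-- The pairs of elements of `[n]`. -/
abbrev Pairs (n : ℕ) : Type := {e : Sym2 (Fin n) // ¬ e.IsDiag}

/-- The graph on `[n]` whose edge set is given by `f`. -/
def graphOf {n : ℕ} (f : Pairs n → Bool) : SimpleGraph (Fin n) :=
  SimpleGraph.fromEdgeSet {e | ∃ h : ¬ e.IsDiag, f ⟨e, h⟩ = true}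

/-- The `H`-free edge sets. -/
def hFree {W : Type} (H : SimpleGraph W) (n : ℕ) : Set (Pairs n → Bool) :=
  {f | H.Free (graphOf f)}

/-! ### Expectations over independent samples -/

section Abstract

variable {Λ : Type} [Fintype Λ]

/-- The expectation of `F` over independent samples from `μ` indexed by `ι`. -/
noncomputable def expec {ι : Type} [Fintype ι] [DecidableEq ι] (μ : Λ → ℝ)
    (F : (ι → Λ) → ℝ) : ℝ :=
  ∑ x : ι → Λ, (∏ i, μ (x i)) * F x

lemma sum_prod_eq {ι : Type} [Fintype ι] [DecidableEq ι] (μ : Λ → ℝ) :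
    ∑ x : ι → Λ, ∏ i, μ (x i) = ∏ _i : ι, ∑ e, μ e := by
  rw [Finset.prod_univ_sum, Fintype.piFinset_univ]

lemma expec_one {ι : Type} [Fintype ι] [DecidableEq ι] {μ : Λ → ℝ} (hμ : ∑ x, μ x = 1) :
    expec μ (fun _ : ι → Λ => 1) = 1 := by
  unfold expec
  simp only [mul_one]
  rw [sum_prod_eq, hμ, prod_const_one]

lemma expec_mono {ι : Type} [Fintype ι] [DecidableEq ι] {μ : Λ → ℝ} (hμ : ∀ x, 0 ≤ μ x)
    {F G : (ι → Λ) → ℝ} (h : ∀ x, F x ≤ G x) : expec μ F ≤ expec μ G :=
  sum_le_sum fun x _ => mul_le_mul_of_nonneg_left (h x) (prod_nonneg fun i _ => hμ (x i))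

lemma expec_const_mul {ι : Type} [Fintype ι] [DecidableEq ι] {μ : Λ → ℝ} (c : ℝ)
    (F : (ι → Λ) → ℝ) : expec μ (fun x => c * F x) = c * expec μ F := by
  unfold expec
  rw [mul_sum]
  exact sum_congr rfl fun x _ => by ring

lemma expec_add {ι : Type} [Fintype ι] [DecidableEq ι] {μ : Λ → ℝ}
    (F G : (ι → Λ) → ℝ) : expec μ (fun x => F x + G x) = expec μ F + expec μ G := by
  unfold expec
  rw [← sum_add_distrib]
  exact sum_congr rfl fun x _ => by ring

lemma expec_sum {ι κ : Type} [Fintype ι] [DecidableEq ι] {μ : Λ → ℝ} (T : Finset κ)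
    (F : κ → (ι → Λ) → ℝ) : expec μ (fun x => ∑ k ∈ T, F k x) = ∑ k ∈ T, expec μ (F k) := by
  unfold expec
  rw [sum_comm]
  exact sum_congr rfl fun x _ => by rw [mul_sum]

/-- Samples with different indices are independent and identically distributed. -/
lemma expec_comp {ι κ : Type} [Fintype ι] [DecidableEq ι] [Fintype κ] [DecidableEq κ]
    {μ : Λ → ℝ} (hμ : ∑ x, μ x = 1) (e : ι ↪ κ) (F : (ι → Λ) → ℝ) :
    expec μ (fun x : κ → Λ => F (x ∘ e)) = expec μ F := by
  classical
  unfold expec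
  rw [← (Equiv.piEquivPiSubtypeProd (fun k => k ∈ Set.range e) (fun _ => Λ)).symm.sum_comp,
    Fintype.sum_prod_type,
    ← (Equiv.arrowCongr (Equiv.ofInjective e e.injective) (Equiv.refl Λ)).sum_comp]
  refine Fintype.sum_congr _ _ fun z => ?_
  have hval : ∀ (y : {k // ¬ k ∈ Set.range e} → Λ) (i : ι),
      (Equiv.piEquivPiSubtypeProd (fun k => k ∈ Set.range e) (fun _ => Λ)).symm
        ((Equiv.arrowCongr (Equiv.ofInjective e e.injective) (Equiv.refl Λ)) z, y) (e i) = z i := by
    intro y i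
    have hi : e i ∈ Set.range e := Set.mem_range_self i
    simp only [Equiv.piEquivPiSubtypeProd_symm_apply, dif_pos hi, Equiv.arrowCongr_apply,
      Equiv.coe_refl, Function.comp_apply, id_eq]
    congr 1
    exact Equiv.ofInjective_symm_apply e.injective i
  have hprod : ∀ y : {k // ¬ k ∈ Set.range e} → Λ,
      ∏ k, μ ((Equiv.piEquivPiSubtypeProd (fun k => k ∈ Set.range e) (fun _ => Λ)).symm
        ((Equiv.arrowCongr (Equiv.ofInjective e e.injective) (Equiv.refl Λ)) z, y) k) =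
        (∏ i, μ (z i)) * ∏ k, μ (y k) := by
    intro y
    rw [← Fintype.prod_subtype_mul_prod_subtype (fun k => k ∈ Set.range e)]
    congr 1
    · symm
      refine prod_bij (fun i _ => (⟨e i, Set.mem_range_self i⟩ : {k // k ∈ Set.range e}))
        (fun i _ => @mem_univ _ (_) _) (fun i _ j _ hij => e.injective (congrArg Subtype.val hij))
        (fun k _ => ?_) (fun i _ => ?_)
      · obtain ⟨k, i, rfl⟩ := k
        exact ⟨i, mem_univ _, rfl⟩
      · exact congrArg μ (hval y i).symm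
    · refine Fintype.prod_congr _ _ fun k => ?_
      simp only [Equiv.piEquivPiSubtypeProd_symm_apply, dif_neg k.2]
  have hcomp : ∀ y : {k // ¬ k ∈ Set.range e} → Λ,
      ((Equiv.piEquivPiSubtypeProd (fun k => k ∈ Set.range e) (fun _ => Λ)).symm
        ((Equiv.arrowCongr (Equiv.ofInjective e e.injective) (Equiv.refl Λ)) z, y)) ∘ e = z := by
    intro y
    funext i
    exact hval y i
  calc _ = ∑ y : {k // ¬ k ∈ Set.range e} → Λ, ((∏ i, μ (z i)) * F z) * ∏ k, μ (y k) := by
        refine Fintype.sum_congr _ _ fun y => ?_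
        simp only
        rw [hprod, hcomp]
        ring
    _ = _ := by
        rw [← mul_sum, sum_prod_eq, hμ, prod_const_one, mul_one]

/-! ### Copies among the samples -/

/-- The positive samples with an index in `S` contain a member of `𝒦`. -/
def Hit {ι : Type} (𝒦 : Set (Finset Λ)) (f : Λ → Bool) (S : Finset ι) (x : ι → Λ) : Prop :=
  ∃ K ∈ 𝒦, ∀ e ∈ K, f e = true ∧ ∃ i ∈ S, x i = e

omit [Fintype Λ] in
lemma Hit.mono {ι : Type} {𝒦 : Set (Finset Λ)} {f : Λ → Bool} {S T : Finset ι} {x : ι → Λ}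
    (h : Hit 𝒦 f S x) (hST : S ⊆ T) : Hit 𝒦 f T x := by
  obtain ⟨K, hK, h⟩ := h
  refine ⟨K, hK, fun e he => ⟨(h e he).1, ?_⟩⟩
  obtain ⟨i, hi, hx⟩ := (h e he).2
  exact ⟨i, hST hi, hx⟩

omit [Fintype Λ] in
lemma hit_comp_iff {ι κ : Type} [Fintype ι] {𝒦 : Set (Finset Λ)} {f : Λ → Bool}
    (S : Finset κ) (e : ι ↪ κ) (he : ∀ k, k ∈ S ↔ ∃ i, e i = k) (x : κ → Λ) :
    Hit 𝒦 f S x ↔ Hit 𝒦 f (univ : Finset ι) (x ∘ e) := by
  constructor
  · rintro ⟨K, hK, h⟩
    refine ⟨K, hK, fun a ha => ⟨(h a ha).1, ?_⟩⟩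
    obtain ⟨k, hk, hx⟩ := (h a ha).2
    obtain ⟨i, rfl⟩ := (he k).1 hk
    exact ⟨i, mem_univ _, hx⟩
  · rintro ⟨K, hK, h⟩
    refine ⟨K, hK, fun a ha => ⟨(h a ha).1, ?_⟩⟩
    obtain ⟨i, -, hx⟩ := (h a ha).2
    exact ⟨e i, (he _).2 ⟨i, rfl⟩, hx⟩

open Classical in
/-- The probability that `m` samples contain a member of `𝒦`. -/
noncomputable def hitProb (𝒦 : Set (Finset Λ)) (f : Λ → Bool) (μ : Λ → ℝ) (m : ℕ) : ℝ :=
  expec μ (fun x : Fin m → Λ => if Hit 𝒦 f univ x then (1 : ℝ) else 0)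

open Classical in
/-- At most `m` of the samples contain a copy with probability at most `hitProb m`. -/
lemma expec_hit_le {𝒦 : Set (Finset Λ)} {f : Λ → Bool} {μ : Λ → ℝ} (hμ : IsDist μ) {M m : ℕ}
    (S : Finset (Fin M)) (hS : S.card ≤ m) :
    expec μ (fun x : Fin M → Λ => if Hit 𝒦 f S x then (1 : ℝ) else 0) ≤ hitProb 𝒦 f μ m := by
  obtain ⟨e2⟩ : Nonempty (S ↪ Fin m) := by
    refine Function.Embedding.nonempty_of_card_le ?_
    rw [Fintype.card_coe, Fintype.card_fin]
    exact hS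
  have h1 : expec μ (fun x : Fin M → Λ => if Hit 𝒦 f S x then (1 : ℝ) else 0) =
      expec μ (fun z : S → Λ => if Hit 𝒦 f univ z then (1 : ℝ) else 0) := by
    rw [← expec_comp hμ.2 (Function.Embedding.subtype fun i => i ∈ S)]
    congr 1
    funext x
    have h := hit_comp_iff (𝒦 := 𝒦) (f := f) S (Function.Embedding.subtype fun i => i ∈ S)
      (fun k => ⟨fun hk => ⟨⟨k, hk⟩, rfl⟩, fun ⟨i, hi⟩ => hi ▸ i.2⟩) x
    exact if_congr h rfl rfl
  rw [h1, ← expec_comp hμ.2 e2]
  unfold hitProb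
  refine expec_mono hμ.1 fun x => ?_
  by_cases hx : Hit 𝒦 f (univ : Finset S) (x ∘ e2)
  · rw [if_pos hx, if_pos]
    obtain ⟨K, hK, h⟩ := hx
    refine ⟨K, hK, fun a ha => ⟨(h a ha).1, ?_⟩⟩
    obtain ⟨i, -, hi⟩ := (h a ha).2
    exact ⟨e2 i, mem_univ _, hi⟩
  · rw [if_neg hx]
    split_ifs
    · exact zero_le_one
    · exact le_rfl

/-- The indices at which `f` and `g` disagree. -/
def dis {M : ℕ} (f g : Λ → Bool) (x : Fin M → Λ) : ℕ := (univ.filter fun i => f (x i) ≠ g (x i)).card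

/-- The family of the functions which vanish somewhere on each member of `𝒦`. -/
def avoid (𝒦 : Set (Finset Λ)) : Set (Λ → Bool) := {g | ∀ K ∈ 𝒦, ∃ e ∈ K, g e = false}

omit [Fintype Λ] in
/-- A maximal family of index-disjoint copies is large. -/
lemma exists_packing [DecidableEq Λ] {𝒦 : Set (Finset Λ)} {f : Λ → Bool} {h t M : ℕ} (hh : 0 < h)
    (hK : ∀ K ∈ 𝒦, K.card = h) (x : Fin M → Λ)
    (hx : ∀ g ∈ avoid 𝒦, h * t < dis f g x) :
    ∃ J : Finset (Finset (Fin M)), J.card = t ∧ (∀ A ∈ J, A.card = h ∧ Hit 𝒦 f A x) ∧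
      ∀ A ∈ J, ∀ B ∈ J, A ≠ B → Disjoint A B := by
  classical
  set P : Finset (Finset (Finset (Fin M))) := univ.filter fun J =>
    (∀ A ∈ J, A.card = h ∧ Hit 𝒦 f A x) ∧ ∀ A ∈ J, ∀ B ∈ J, A ≠ B → Disjoint A B with hP
  have hPne : P.Nonempty := ⟨∅, by simp [hP]⟩
  obtain ⟨J, hJ, hmax⟩ := exists_max_image P (fun J => J.card) hPne
  rw [hP, mem_filter] at hJ
  obtain ⟨-, hJ1, hJ2⟩ := hJ
  have hcard : t ≤ J.card := by
    by_contra hlt
    push Not at hlt
    set U : Finset (Fin M) := J.biUnion id with hU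
    have hUcard : U.card ≤ h * t := by
      calc U.card ≤ ∑ A ∈ J, (id A).card := card_biUnion_le
        _ = ∑ _A ∈ J, h := sum_congr rfl fun A hA => (hJ1 A hA).1
        _ = J.card * h := by rw [sum_const, smul_eq_mul]
        _ ≤ h * t := by rw [mul_comm]; exact Nat.mul_le_mul_left _ hlt.le
    set g : Λ → Bool := fun e => decide (f e = true ∧ ∃ i, i ∉ U ∧ x i = e) with hg
    have hgA : g ∈ avoid 𝒦 := by
      intro K hKK
      by_contra hcon
      push Not at hcon
      have hcon' : ∀ e ∈ K, f e = true ∧ ∃ i, i ∉ U ∧ x i = e := by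
        intro e he
        have h1 := hcon e he
        rw [ne_eq, Bool.not_eq_false, hg] at h1
        exact of_decide_eq_true h1
      have hsec : ∀ e : K, ∃ i, i ∉ U ∧ x i = e := fun e => (hcon' e e.2).2
      choose s hs1 hs2 using hsec
      have hsinj : Function.Injective s := by
        intro a b hab
        apply Subtype.ext
        rw [← hs2 a, ← hs2 b, hab]
      set A : Finset (Fin M) := univ.image s with hA
      have hAcard : A.card = h := by
        rw [hA, card_image_of_injective _ hsinj, card_univ, Fintype.card_coe, hK K hKK]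
      have hAhit : Hit 𝒦 f A x :=
        ⟨K, hKK, fun e he => ⟨(hcon' e he).1, s ⟨e, he⟩, mem_image_of_mem _ (mem_univ _),
          hs2 ⟨e, he⟩⟩⟩
      have hAdis : ∀ B ∈ J, Disjoint A B := by
        intro B hB
        rw [disjoint_left]
        intro i hi hiB
        rw [hA, mem_image] at hi
        obtain ⟨e, -, rfl⟩ := hi
        exact hs1 e (mem_biUnion.2 ⟨B, hB, hiB⟩)
      have hAJ : A ∉ J := by
        intro hAJ
        have h1 := hAdis A hAJ
        rw [disjoint_self_iff_empty] at h1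
        rw [h1, card_empty] at hAcard
        omega
      have hins : insert A J ∈ P := by
        rw [hP, mem_filter]
        refine ⟨mem_univ _, ?_, ?_⟩
        · intro B hB
          rw [mem_insert] at hB
          rcases hB with rfl | hB
          · exact ⟨hAcard, hAhit⟩
          · exact hJ1 B hB
        · intro B hB C hC hBC
          rw [mem_insert] at hB hC
          rcases hB with rfl | hB <;> rcases hC with rfl | hC
          · exact absurd rfl hBC
          · exact hAdis C hC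
          · exact (hAdis B hB).symm
          · exact hJ2 B hB C hC hBC
      have h2 := hmax _ hins
      rw [card_insert_of_notMem hAJ] at h2
      omega
    have h1 := hx g hgA
    have h2 : dis f g x ≤ U.card := by
      refine card_le_card ?_
      intro i hi
      rw [mem_filter] at hi
      by_contra hiU
      apply hi.2
      rw [hg]
      simp only
      by_cases hf : f (x i) = true
      · rw [hf]
        symm
        rw [decide_eq_true_eq]
        exact ⟨rfl, i, hiU, rfl⟩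
      · rw [Bool.not_eq_true] at hf
        rw [hf]
        simp
    omega
  obtain ⟨J', hJ'sub, hJ'card⟩ := exists_subset_card_eq hcard
  exact ⟨J', hJ'card, fun A hA => hJ1 A (hJ'sub hA),
    fun A hA B hB => hJ2 A (hJ'sub hA) B (hJ'sub hB)⟩

/-! ### Random subsets of the indices -/

/-- The indices of colour `0`. -/
def zeros {M q : ℕ} (c : Fin M → Fin (q + 1)) : Finset (Fin M) := univ.filter fun i => c i = 0

lemma subset_zeros {M q : ℕ} {c : Fin M → Fin (q + 1)} {A : Finset (Fin M)} :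
    A ⊆ zeros c ↔ ∀ i ∈ A, c i = 0 := by
  constructor
  · intro h i hi
    exact (mem_filter.1 (h hi)).2
  · intro h i hi
    exact mem_filter.2 ⟨mem_univ _, h i hi⟩

/-- The number of colourings for which all elements of `A` have colour `0`. -/
lemma card_color {M q : ℕ} (A : Finset (Fin M)) :
    ((univ.filter fun c : Fin M → Fin (q + 1) => A ⊆ zeros c).card : ℝ) * ((q : ℝ) + 1) ^ A.card =
      ((q : ℝ) + 1) ^ M := by
  classical
  have h1 : (univ.filter fun c : Fin M → Fin (q + 1) => A ⊆ zeros c) =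
      Fintype.piFinset fun i => if i ∈ A then ({0} : Finset (Fin (q + 1))) else univ := by
    ext c
    rw [mem_filter, subset_zeros, Fintype.mem_piFinset]
    constructor
    · rintro ⟨-, h⟩ i
      split_ifs with hi
      · rw [h i hi]
        exact mem_singleton_self _
      · exact mem_univ _
    · intro h
      refine ⟨mem_univ _, fun i hi => ?_⟩
      have := h i
      rw [if_pos hi, mem_singleton] at this
      exact this
  rw [h1, Fintype.card_piFinset]
  have h2 : ∀ i : Fin M, (if i ∈ A then ({0} : Finset (Fin (q + 1))) else univ).card =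
      if i ∈ A then 1 else q + 1 := by
    intro i
    split_ifs
    · rfl
    · rw [card_univ, Fintype.card_fin]
  rw [prod_congr rfl fun i _ => h2 i]
  push_cast
  have h3 : ((q : ℝ) + 1) ^ A.card = ∏ i : Fin M, if i ∈ A then ((q : ℝ) + 1) else 1 := by
    rw [prod_ite_mem, univ_inter, prod_const]
  rw [h3, ← prod_mul_distrib]
  have h4 : ∀ i : Fin M, (if i ∈ A then (1 : ℝ) else (q : ℝ) + 1) *
      (if i ∈ A then ((q : ℝ) + 1) else 1) = (q : ℝ) + 1 := by
    intro i
    split_ifs <;> ring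
  rw [prod_congr rfl fun i _ => h4 i, prod_const, card_univ, Fintype.card_fin]

/-- Few colourings have more than `m` indices of colour `0`. -/
lemma card_large {M q m : ℕ} (hm : 10 * M ≤ m * (q + 1)) :
    ((univ.filter fun c : Fin M → Fin (q + 1) => m < (zeros c).card).card : ℝ) ≤
      ((q : ℝ) + 1) ^ M / 10 := by
  classical
  have hq : (0 : ℝ) < (q : ℝ) + 1 := by positivity
  have h1 : ∑ c : Fin M → Fin (q + 1), ((zeros c).card : ℝ) = M * (((q : ℝ) + 1) ^ M / (q + 1)) := by
    have h2 : ∀ c : Fin M → Fin (q + 1), ((zeros c).card : ℝ) =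
        ∑ i : Fin M, if ({i} : Finset (Fin M)) ⊆ zeros c then (1 : ℝ) else 0 := by
      intro c
      simp only [singleton_subset_iff]
      rw [← sum_filter, sum_const, nsmul_eq_mul, mul_one, filter_mem_eq_inter, univ_inter]
    rw [sum_congr rfl fun c _ => h2 c, sum_comm]
    have h3 : ∀ i : Fin M, ∑ c : Fin M → Fin (q + 1),
        (if ({i} : Finset (Fin M)) ⊆ zeros c then (1 : ℝ) else 0) =
          ((q : ℝ) + 1) ^ M / (q + 1) := by
      intro i
      rw [← sum_filter, sum_const, nsmul_eq_mul, mul_one, eq_div_iff hq.ne']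
      have := card_color (q := q) ({i} : Finset (Fin M))
      rw [card_singleton, pow_one] at this
      exact this
    rw [sum_congr rfl fun i _ => h3 i, sum_const, card_univ, Fintype.card_fin, nsmul_eq_mul]
  set F := univ.filter fun c : Fin M → Fin (q + 1) => m < (zeros c).card with hF
  have h4 : (F.card : ℝ) * (m + 1) ≤ M * (((q : ℝ) + 1) ^ M / (q + 1)) := by
    rw [← h1]
    calc (F.card : ℝ) * (m + 1) = ∑ _c ∈ F, ((m : ℝ) + 1) := by rw [sum_const, nsmul_eq_mul]
      _ ≤ ∑ c ∈ F, ((zeros c).card : ℝ) := by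
          refine sum_le_sum fun c hc => ?_
          have := (mem_filter.1 hc).2
          exact_mod_cast this
      _ ≤ _ := sum_le_sum_of_subset_of_nonneg (subset_univ _) fun _ _ _ => Nat.cast_nonneg _
  have h5 : (10 : ℝ) * M ≤ m * (q + 1) := by exact_mod_cast hm
  have h6 : (M : ℝ) * (((q : ℝ) + 1) ^ M / (q + 1)) ≤ (m + 1) * (((q : ℝ) + 1) ^ M / 10) := by
    have h7 : (0 : ℝ) ≤ ((q : ℝ) + 1) ^ M := by positivity
    rw [mul_div_assoc', mul_div_assoc', div_le_div_iff₀ hq (by norm_num)]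
    nlinarith
  have h8 : (F.card : ℝ) * (m + 1) ≤ (((q : ℝ) + 1) ^ M / 10) * (m + 1) := by linarith
  exact le_of_mul_le_mul_right h8 (by positivity)

/-- Second moment: for most colourings one of many disjoint sets has colour `0`. -/
lemma card_miss {M q h t : ℕ} (ht : 10 * (q + 1) ^ h ≤ t) (J : Finset (Finset (Fin M)))
    (hJt : J.card = t) (hJh : ∀ A ∈ J, A.card = h)
    (hJd : ∀ A ∈ J, ∀ B ∈ J, A ≠ B → Disjoint A B) :
    ((univ.filter fun c : Fin M → Fin (q + 1) => ∀ A ∈ J, ¬ A ⊆ zeros c).card : ℝ) ≤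
      ((q : ℝ) + 1) ^ M / 10 := by
  classical
  have hq : (0 : ℝ) < (q : ℝ) + 1 := by positivity
  set Z : (Fin M → Fin (q + 1)) → ℝ := fun c => ∑ A ∈ J, if A ⊆ zeros c then (1 : ℝ) else 0 with hZ
  set p : ℝ := 1 / ((q : ℝ) + 1) ^ h with hp
  have hppos : 0 < p := by positivity
  set T : ℝ := ((q : ℝ) + 1) ^ M with hT
  have hTpos : 0 < T := by positivity
  have hone : ∀ A ∈ J, ∑ c : Fin M → Fin (q + 1), (if A ⊆ zeros c then (1 : ℝ) else 0) = p * T := by
    intro A hA
    rw [← sum_filter, sum_const, nsmul_eq_mul, mul_one]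
    have := card_color (q := q) A
    rw [hJh A hA] at this
    rw [hp, hT, ← this]
    field_simp
  have htwo : ∀ A ∈ J, ∀ B ∈ J, A ≠ B → ∑ c : Fin M → Fin (q + 1),
      (if A ⊆ zeros c then (1 : ℝ) else 0) * (if B ⊆ zeros c then (1 : ℝ) else 0) = p ^ 2 * T := by
    intro A hA B hB hAB
    have h1 : ∀ c : Fin M → Fin (q + 1), (if A ⊆ zeros c then (1 : ℝ) else 0) *
        (if B ⊆ zeros c then (1 : ℝ) else 0) = if A ∪ B ⊆ zeros c then (1 : ℝ) else 0 := by
      intro c
      by_cases h1 : A ⊆ zeros c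
      · by_cases h2 : B ⊆ zeros c
        · rw [if_pos h1, if_pos h2, if_pos (union_subset h1 h2), mul_one]
        · rw [if_neg h2, if_neg (fun h => h2 (subset_union_right.trans h)), mul_zero]
      · rw [if_neg h1, if_neg (fun h => h1 (subset_union_left.trans h)), zero_mul]
    rw [sum_congr rfl fun c _ => h1 c, ← sum_filter, sum_const, nsmul_eq_mul, mul_one]
    have := card_color (q := q) (A ∪ B)
    rw [card_union_of_disjoint (hJd A hA B hB hAB), hJh A hA, hJh B hB] at this
    rw [hp, hT, ← this, pow_add]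
    field_simp
  have hS1 : ∑ c, Z c = t * (p * T) := by
    rw [hZ, sum_comm, sum_congr rfl hone, sum_const, nsmul_eq_mul, hJt]
  have hS2 : ∑ c, Z c ^ 2 ≤ t * (p * T) + (t : ℝ) ^ 2 * (p ^ 2 * T) := by
    have h1 : ∀ c, Z c ^ 2 = ∑ A ∈ J, ∑ B ∈ J, (if A ⊆ zeros c then (1 : ℝ) else 0) *
        (if B ⊆ zeros c then (1 : ℝ) else 0) := by
      intro c
      rw [hZ, sq]
      simp only
      rw [sum_mul_sum]
    rw [sum_congr rfl fun c _ => h1 c, sum_comm]
    have h2 : ∀ A ∈ J, ∑ c : Fin M → Fin (q + 1), ∑ B ∈ J, (if A ⊆ zeros c then (1 : ℝ) else 0) *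
        (if B ⊆ zeros c then (1 : ℝ) else 0) ≤ p * T + t * (p ^ 2 * T) := by
      intro A hA
      rw [sum_comm, ← add_sum_erase J _ hA]
      refine add_le_add (le_of_eq ?_) ?_
      · rw [← hone A hA]
        refine sum_congr rfl fun c _ => ?_
        split_ifs <;> simp
      · rw [sum_congr rfl fun B hB => htwo A hA B (mem_of_mem_erase hB) (ne_of_mem_erase hB).symm,
          sum_const, nsmul_eq_mul]
        refine mul_le_mul_of_nonneg_right ?_ (by positivity)
        rw [← hJt]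
        exact_mod_cast card_le_card (erase_subset _ _)
    calc _ ≤ ∑ A ∈ J, (p * T + t * (p ^ 2 * T)) := sum_le_sum h2
      _ = _ := by rw [sum_const, nsmul_eq_mul, hJt]; ring
  set F := univ.filter fun c : Fin M → Fin (q + 1) => ∀ A ∈ J, ¬ A ⊆ zeros c with hF
  have hcardc : ((Fintype.card (Fin M → Fin (q + 1)) : ℕ) : ℝ) = T := by
    rw [Fintype.card_fun, Fintype.card_fin, Fintype.card_fin, hT]
    push_cast
    rfl
  have hvar : ∑ c, (Z c - t * p) ^ 2 ≤ t * p * T := by
    have h1 : ∀ c, (Z c - t * p) ^ 2 = Z c ^ 2 - 2 * (t * p) * Z c + (t * p) ^ 2 := fun c => by ring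
    rw [sum_congr rfl fun c _ => h1 c, sum_add_distrib, sum_sub_distrib, ← mul_sum, hS1,
      sum_const, nsmul_eq_mul, card_univ, hcardc]
    nlinarith [hS2]
  have hlow : (F.card : ℝ) * (t * p) ^ 2 ≤ ∑ c, (Z c - t * p) ^ 2 := by
    calc (F.card : ℝ) * (t * p) ^ 2 = ∑ _c ∈ F, ((t : ℝ) * p) ^ 2 := by
          rw [sum_const, nsmul_eq_mul]
      _ = ∑ c ∈ F, (Z c - t * p) ^ 2 := by
          refine sum_congr rfl fun c hc => ?_
          have h1 : Z c = 0 := by
            rw [hZ]
            refine sum_eq_zero fun A hA => ?_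
            rw [if_neg ((mem_filter.1 hc).2 A hA)]
          rw [h1]
          ring
      _ ≤ _ := sum_le_sum_of_subset_of_nonneg (subset_univ _) fun _ _ _ => sq_nonneg _
  have htp : 10 ≤ t * p := by
    have h1 : (10 : ℝ) * ((q : ℝ) + 1) ^ h ≤ t := by exact_mod_cast ht
    rw [hp, mul_one_div, le_div_iff₀ (by positivity)]
    exact h1
  have h1 : (F.card : ℝ) * (t * p) ^ 2 ≤ t * p * T := hlow.trans hvar
  have h2 : (F.card : ℝ) * (t * p) ≤ T := by
    have h3 : ((F.card : ℝ) * (t * p)) * (t * p) ≤ T * (t * p) := by nlinarith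
    exact le_of_mul_le_mul_right h3 (by linarith)
  have h3 : (F.card : ℝ) * 10 ≤ F.card * (t * p) :=
    mul_le_mul_of_nonneg_left htp (Nat.cast_nonneg _)
  linarith

/-! ### The union bound -/

lemma expec_half_pow {f g : Λ → Bool} {μ : Λ → ℝ} (hμ : IsDist μ) {ε : ℝ} {M : ℕ}
    (hfar : ε ≤ ∑ x, if f x ≠ g x then μ x else 0) :
    expec μ (fun x : Fin M → Λ => (1 / 2 : ℝ) ^ dis f g x) ≤ (1 - ε / 2) ^ M := by
  classical
  have h1 : ∀ x : Fin M → Λ, (∏ i, μ (x i)) * (1 / 2 : ℝ) ^ dis f g x =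
      ∏ i, (μ (x i) * if f (x i) ≠ g (x i) then (1 / 2 : ℝ) else 1) := by
    intro x
    rw [prod_mul_distrib]
    congr 1
    rw [← prod_filter, prod_const]
    rfl
  unfold expec
  rw [sum_congr rfl fun x _ => h1 x, sum_prod_eq (Λ := Λ) (ι := Fin M)
    (fun e => μ e * if f e ≠ g e then (1 / 2 : ℝ) else 1), prod_const, card_univ, Fintype.card_fin]
  have h2 : ∑ e, μ e * (if f e ≠ g e then (1 / 2 : ℝ) else 1) =
      1 - (∑ x, if f x ≠ g x then μ x else 0) / 2 := by
    have h3 : ∀ e, μ e * (if f e ≠ g e then (1 / 2 : ℝ) else 1) =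
        μ e - (if f e ≠ g e then μ e else 0) / 2 := by
      intro e
      split_ifs <;> ring
    rw [sum_congr rfl fun e _ => h3 e, sum_sub_distrib, hμ.2, sum_div]
  rw [h2]
  refine pow_le_pow_left₀ ?_ (by linarith) M
  rw [← h2]
  refine sum_nonneg fun e _ => mul_nonneg (hμ.1 e) ?_
  split_ifs <;> norm_num

/-- The number of functions with at most `d` ones. -/
lemma card_family_le {d : ℕ} (T : Finset (Λ → Bool))
    (hT : ∀ g ∈ T, (univ.filter fun e => g e = true).card ≤ d) :
    T.card ≤ (Fintype.card Λ + 1) ^ d := by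
  classical
  set φ : (Fin d → Option Λ) → (Λ → Bool) := fun u e => decide (∃ i, u i = some e) with hφ
  have hsub : T ⊆ univ.image φ := by
    intro g hg
    rw [mem_image]
    set A := univ.filter fun e => g e = true with hA
    have hAd : A.card ≤ d := hT g hg
    obtain ⟨emb⟩ : Nonempty (A ↪ Fin d) := by
      refine Function.Embedding.nonempty_of_card_le ?_
      rw [Fintype.card_coe, Fintype.card_fin]
      exact hAd
    refine ⟨fun i => if hi : ∃ a : A, emb a = i then some (hi.choose : Λ) else none,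
      mem_univ _, ?_⟩
    funext e
    rw [hφ]
    simp only
    by_cases he : g e = true
    · rw [he, decide_eq_true_eq]
      have heA : e ∈ A := by
        rw [hA, mem_filter]
        exact ⟨mem_univ _, he⟩
      have hex : ∃ a : A, emb a = emb ⟨e, heA⟩ := ⟨⟨e, heA⟩, rfl⟩
      refine ⟨emb ⟨e, heA⟩, ?_⟩
      rw [dif_pos hex]
      congr 1
      have := emb.injective hex.choose_spec
      rw [this]
    · rw [Bool.not_eq_true] at he
      rw [he, decide_eq_false_iff_not]
      rintro ⟨i, hi⟩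
      split_ifs at hi with hex
      · have h1 := hex.choose.2
        rw [Option.some.injEq] at hi
        rw [hi, hA, mem_filter, he] at h1
        exact absurd h1.2 (by decide)
  calc T.card ≤ (univ.image φ).card := card_le_card hsub
    _ ≤ (univ : Finset (Fin d → Option Λ)).card := card_image_le
    _ = _ := by
        rw [card_univ, Fintype.card_fun, Fintype.card_option, Fintype.card_fin]

open Classical in
lemma union_bound {𝒦 : Set (Finset Λ)} {f : Λ → Bool} {μ : Λ → ℝ} (hμ : IsDist μ) {ε : ℝ}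
    (hε : ε ≤ 2) (hfar : IsFar (avoid 𝒦) μ f ε) {d M s : ℕ}
    (hd : ∀ g ∈ avoid 𝒦, (univ.filter fun e => g e = true).card ≤ d) :
    expec μ (fun x : Fin M → Λ => if ∃ g ∈ avoid 𝒦, dis f g x ≤ s then (1 : ℝ) else 0) ≤
      ((Fintype.card Λ : ℝ) + 1) ^ d * (2 ^ s * (1 - ε / 2) ^ M) := by
  set T : Finset (Λ → Bool) := univ.filter fun g => g ∈ avoid 𝒦 with hT
  have h1 : ∀ x : Fin M → Λ, (if ∃ g ∈ avoid 𝒦, dis f g x ≤ s then (1 : ℝ) else 0) ≤
      ∑ g ∈ T, 2 ^ s * (1 / 2 : ℝ) ^ dis f g x := by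
    intro x
    split_ifs with hx
    · obtain ⟨g, hg, hgs⟩ := hx
      refine le_trans ?_ (single_le_sum (f := fun g => (2 : ℝ) ^ s * (1 / 2 : ℝ) ^ dis f g x)
        (fun g _ => by positivity) (show g ∈ T from mem_filter.2 ⟨mem_univ _, hg⟩))
      have h2 : (1 / 2 : ℝ) ^ s ≤ (1 / 2 : ℝ) ^ dis f g x :=
        pow_le_pow_of_le_one (by norm_num) (by norm_num) hgs
      calc (1 : ℝ) = 2 ^ s * (1 / 2) ^ s := by rw [← mul_pow]; norm_num
        _ ≤ _ := mul_le_mul_of_nonneg_left h2 (by positivity)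
    · exact sum_nonneg fun g _ => by positivity
  refine (expec_mono hμ.1 h1).trans ?_
  rw [expec_sum]
  have hnn : (0 : ℝ) ≤ 1 - ε / 2 := by linarith
  calc _ ≤ ∑ _g ∈ T, (2 ^ s * (1 - ε / 2) ^ M : ℝ) := by
        refine sum_le_sum fun g hg => ?_
        rw [expec_const_mul]
        refine mul_le_mul_of_nonneg_left ?_ (by positivity)
        exact expec_half_pow hμ (hfar g (mem_filter.1 hg).2)
    _ = (T.card : ℝ) * (2 ^ s * (1 - ε / 2) ^ M) := by rw [sum_const, nsmul_eq_mul]
    _ ≤ _ := by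
        refine mul_le_mul_of_nonneg_right ?_ (by positivity)
        have := card_family_le T fun g hg => hd g (mem_filter.1 hg).2
        exact_mod_cast this

/-! ### The main step -/

/-- With the right parameters, `m` samples from a distribution with respect to which `f` is far
from the family contain a copy with probability at least `2 / 3`. -/
lemma hitProb_ge {𝒦 : Set (Finset Λ)} {f : Λ → Bool} {μ : Λ → ℝ} (hμ : IsDist μ) {ε : ℝ}
    (hε : ε ≤ 2) (hfar : IsFar (avoid 𝒦) μ f ε) {d M m q h t : ℕ} (hh : 0 < h)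
    (hK : ∀ K ∈ 𝒦, K.card = h)
    (hd : ∀ g ∈ avoid 𝒦, (univ.filter fun e => g e = true).card ≤ d)
    (h1 : ((Fintype.card Λ : ℝ) + 1) ^ d * (2 ^ (h * t) * (1 - ε / 2) ^ M) ≤ 1 / 10)
    (h2 : 10 * (q + 1) ^ h ≤ t) (h3 : 10 * M ≤ m * (q + 1)) :
    2 / 3 ≤ hitProb 𝒦 f μ m := by
  classical
  set T : ℝ := ((q : ℝ) + 1) ^ M with hT
  have hTpos : 0 < T := by positivity
  have hcardc : ((Fintype.card (Fin M → Fin (q + 1)) : ℕ) : ℝ) = T := by
    rw [Fintype.card_fun, Fintype.card_fin, Fintype.card_fin, hT]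
    push_cast
    rfl
  -- lower bound
  have hlow : T * (9 / 10) * (9 / 10) ≤ expec μ (fun x : Fin M → Λ =>
      ∑ c : Fin M → Fin (q + 1), if Hit 𝒦 f (zeros c) x then (1 : ℝ) else 0) := by
    have hpt : ∀ x : Fin M → Λ, T * (9 / 10) * 1 + (-(T * (9 / 10))) *
        (if ∃ g ∈ avoid 𝒦, dis f g x ≤ h * t then (1 : ℝ) else 0) ≤
        ∑ c : Fin M → Fin (q + 1), if Hit 𝒦 f (zeros c) x then (1 : ℝ) else 0 := by
      intro x
      split_ifs with hx
      · have : (0 : ℝ) ≤ ∑ c : Fin M → Fin (q + 1),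
            if Hit 𝒦 f (zeros c) x then (1 : ℝ) else 0 :=
          sum_nonneg fun c _ => by split_ifs <;> norm_num
        linarith
      · push Not at hx
        obtain ⟨J, hJt, hJ1, hJd⟩ := exists_packing hh hK x hx
        have hmiss := card_miss h2 J hJt (fun A hA => (hJ1 A hA).1) hJd
        have h4 : ∀ c : Fin M → Fin (q + 1), (1 : ℝ) -
            (if ∀ A ∈ J, ¬ A ⊆ zeros c then (1 : ℝ) else 0) ≤
              if Hit 𝒦 f (zeros c) x then (1 : ℝ) else 0 := by
          intro c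
          by_cases hc : ∀ A ∈ J, ¬ A ⊆ zeros c
          · rw [if_pos hc]
            split_ifs <;> norm_num
          · rw [if_neg hc]
            push Not at hc
            obtain ⟨A, hA, hAc⟩ := hc
            rw [if_pos ((hJ1 A hA).2.mono hAc)]
            norm_num
        have h5 := sum_le_sum fun c (_ : c ∈ (univ : Finset (Fin M → Fin (q + 1)))) => h4 c
        rw [sum_sub_distrib, sum_const, nsmul_eq_mul, mul_one, card_univ, hcardc, ← sum_filter,
          sum_const, nsmul_eq_mul, mul_one] at h5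
        linarith
    refine le_trans ?_ (expec_mono hμ.1 hpt)
    rw [expec_add, expec_const_mul, expec_const_mul, expec_one hμ.2]
    have h6 := (union_bound hμ hε hfar hd (M := M) (s := h * t)).trans h1
    have h7 : 0 < T * (9 / 10) := by positivity
    nlinarith
  -- upper bound
  have hup : expec μ (fun x : Fin M → Λ =>
      ∑ c : Fin M → Fin (q + 1), if Hit 𝒦 f (zeros c) x then (1 : ℝ) else 0) ≤
        T / 10 + T * hitProb 𝒦 f μ m := by
    rw [expec_sum]
    have hR0 : 0 ≤ hitProb 𝒦 f μ m := by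
      unfold hitProb expec
      refine sum_nonneg fun x _ => mul_nonneg (prod_nonneg fun i _ => hμ.1 _) ?_
      simp only
      split_ifs <;> norm_num
    have h4 : ∀ c : Fin M → Fin (q + 1),
        expec μ (fun x : Fin M → Λ => if Hit 𝒦 f (zeros c) x then (1 : ℝ) else 0) ≤
          (if m < (zeros c).card then (1 : ℝ) else 0) + hitProb 𝒦 f μ m := by
      intro c
      split_ifs with hc
      · have h5 : expec μ (fun x : Fin M → Λ => if Hit 𝒦 f (zeros c) x then (1 : ℝ) else 0) ≤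
            expec μ (fun _ : Fin M → Λ => 1) :=
          expec_mono hμ.1 fun x => by split_ifs <;> norm_num
        rw [expec_one hμ.2] at h5
        linarith
      · rw [zero_add]
        exact expec_hit_le hμ _ (not_lt.1 hc)
    refine (sum_le_sum fun c _ => h4 c).trans ?_
    rw [sum_add_distrib, ← sum_filter, sum_const, sum_const, nsmul_eq_mul, nsmul_eq_mul, mul_one,
      card_univ, hcardc]
    have h5 := card_large (M := M) (q := q) (m := m) h3
    linarith
  have hfin : T * (2 / 3) ≤ T * hitProb 𝒦 f μ m := by linarith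
  exact le_of_mul_le_mul_left hfin hTpos

open Classical in
/-- The tester: accept if the positive samples contain no copy. -/
noncomputable def tester (𝒦 : Set (Finset Λ)) (m : ℕ) : (Fin m → Λ × Bool) → ℝ :=
  fun s => if ∃ K ∈ 𝒦, ∀ e ∈ K, ∃ i, s i = (e, true) then 0 else 1

lemma accProb_tester {𝒦 : Set (Finset Λ)} {f : Λ → Bool} {μ : Λ → ℝ} (hμ : IsDist μ) (m : ℕ) :
    accProb (tester 𝒦 m) μ f = 1 - hitProb 𝒦 f μ m := by
  classical
  have h1 : accProb (tester 𝒦 m) μ f = expec μ (fun x : Fin m → Λ =>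
      1 * 1 + (-1) * (if Hit 𝒦 f univ x then (1 : ℝ) else 0)) := by
    unfold accProb expec tester
    refine sum_congr rfl fun x _ => ?_
    congr 1
    have h2 : (∃ K ∈ 𝒦, ∀ e ∈ K, ∃ i, (x i, f (x i)) = (e, true)) ↔ Hit 𝒦 f univ x := by
      constructor
      · rintro ⟨K, hK, h⟩
        refine ⟨K, hK, fun e he => ?_⟩
        obtain ⟨i, hi⟩ := h e he
        rw [Prod.mk.injEq] at hi
        exact ⟨by rw [← hi.1]; exact hi.2, i, mem_univ _, hi.1⟩
      · rintro ⟨K, hK, h⟩
        refine ⟨K, hK, fun e he => ?_⟩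
        obtain ⟨hfe, i, -, hi⟩ := h e he
        exact ⟨i, by rw [hi, hfe]⟩
    simp only
    by_cases h3 : Hit 𝒦 f univ x
    · rw [if_pos (h2.2 h3), if_pos h3]
      norm_num
    · rw [if_neg (fun h => h3 (h2.1 h)), if_neg h3]
      norm_num
  rw [h1, expec_add, expec_const_mul, expec_const_mul, expec_one hμ.2]
  unfold hitProb
  ring

/-- The abstract tester. -/
lemma isTester {𝒦 : Set (Finset Λ)} {ε : ℝ} (hε : ε ≤ 2) {d M m q h t : ℕ} (hh : 0 < h)
    (hK : ∀ K ∈ 𝒦, K.card = h)
    (hd : ∀ g ∈ avoid 𝒦, (univ.filter fun e => g e = true).card ≤ d)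
    (h1 : ((Fintype.card Λ : ℝ) + 1) ^ d * (2 ^ (h * t) * (1 - ε / 2) ^ M) ≤ 1 / 10)
    (h2 : 10 * (q + 1) ^ h ≤ t) (h3 : 10 * M ≤ m * (q + 1)) :
    IsTester (avoid 𝒦) ε (tester 𝒦 m) := by
  classical
  refine ⟨fun s => ?_, fun μ hμ f => ⟨fun hf => ?_, fun hf => ?_⟩⟩
  · unfold tester
    split_ifs <;> norm_num
  · rw [accProb_tester hμ]
    have h4 : hitProb 𝒦 f μ m = 0 := by
      unfold hitProb expec
      refine sum_eq_zero fun x _ => ?_
      simp only
      rw [if_neg, mul_zero]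
      rintro ⟨K, hKK, h⟩
      obtain ⟨e, he, hfe⟩ := hf K hKK
      rw [(h e he).1] at hfe
      exact absurd hfe (by decide)
    rw [h4]
    norm_num
  · rw [accProb_tester hμ]
    have := hitProb_ge hμ hε hf hh hK hd h1 h2 h3
    linarith

end Abstract

/-! ### The parameters -/

lemma ten_le_exp_three : (10 : ℝ) ≤ Real.exp 3 := by
  have h8 : (2.7 : ℝ) ≤ Real.exp 1 := by
    have := Real.exp_one_gt_d9
    linarith
  calc (10 : ℝ) ≤ 2.7 ^ 3 := by norm_num
    _ ≤ (Real.exp 1) ^ 3 := pow_le_pow_left₀ (by norm_num) h8 3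
    _ = Real.exp 3 := by rw [← Real.exp_nat_mul]; norm_num

/-- The choice of the parameters. -/
lemma params {h : ℕ} (hh : 2 ≤ h) {c ε : ℝ} (hc1 : c < 1 / h) (hε0 : 0 < ε) (hε1 : ε < 1) :
    ∃ C : ℝ, 0 < C ∧ ∀ d N : ℕ, 1 ≤ d → N + 1 ≤ 10 * d ^ 2 → ∃ M m q t : ℕ, 0 < m ∧
      ((N : ℝ) + 1) ^ d * (2 ^ (h * t) * (1 - ε / 2) ^ M) ≤ 1 / 10 ∧
      10 * (q + 1) ^ h ≤ t ∧ 10 * M ≤ m * (q + 1) ∧ (m : ℝ) ≤ C * (d : ℝ) ^ (1 - c) := by
  have hhpos : (0 : ℝ) < h := by
    have : 0 < h := by omega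
    exact_mod_cast this
  set δ : ℝ := 1 / h - c with hδ
  have hδpos : 0 < δ := by rw [hδ]; linarith
  set C₀ : ℝ := 1 + 1 / δ with hC₀
  have hC₀pos : 1 ≤ C₀ := by
    rw [hC₀]
    have : 0 < 1 / δ := by positivity
    linarith
  set C₁ : ℝ := 400 * h / ε + 11 with hC₁
  have hC₁pos : 0 < C₁ := by positivity
  refine ⟨C₁ * (3 ^ (h - 1) * C₀), by positivity, fun d N hd hN => ?_⟩
  have hdR : (1 : ℝ) ≤ d := by exact_mod_cast hd
  have hdpos : (0 : ℝ) < d := by linarith
  set Y : ℝ := C₀ * (d : ℝ) ^ (1 + δ) with hY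
  have hdp : (1 : ℝ) ≤ (d : ℝ) ^ (1 + δ) := Real.one_le_rpow hdR (by linarith)
  have hY1 : 1 ≤ Y := by rw [hY]; nlinarith
  set q : ℕ := ⌈Y ^ (1 / (h : ℝ))⌉₊ with hq
  have hYh : 1 ≤ Y ^ (1 / (h : ℝ)) := Real.one_le_rpow hY1 (by positivity)
  have hqlow : Y ^ (1 / (h : ℝ)) ≤ (q : ℝ) + 1 := by
    have := Nat.le_ceil (Y ^ (1 / (h : ℝ)))
    rw [← hq] at this
    linarith
  have hqup : (q : ℝ) + 1 ≤ 3 * Y ^ (1 / (h : ℝ)) := by
    have := Nat.ceil_lt_add_one (show 0 ≤ Y ^ (1 / (h : ℝ)) by linarith)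
    rw [← hq] at this
    linarith
  have hqpos : (0 : ℝ) < (q : ℝ) + 1 := by positivity
  have hQh : Y ≤ ((q : ℝ) + 1) ^ h := by
    calc Y = (Y ^ (1 / (h : ℝ))) ^ h := by
          rw [← Real.rpow_natCast, ← Real.rpow_mul (by linarith), one_div,
            inv_mul_cancel₀ hhpos.ne', Real.rpow_one]
      _ ≤ _ := pow_le_pow_left₀ (by linarith) hqlow h
  set t : ℕ := 10 * (q + 1) ^ h with ht
  set M : ℕ := ⌈4 * ((h : ℝ) * t) / ε⌉₊ with hM
  set m : ℕ := ⌈10 * (M : ℝ) / (q + 1)⌉₊ with hm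
  have htpos : (0 : ℝ) < t := by
    rw [ht]
    positivity
  have hMlow : 4 * ((h : ℝ) * t) ≤ M * ε := by
    have := Nat.le_ceil (4 * ((h : ℝ) * t) / ε)
    rw [← hM] at this
    rwa [div_le_iff₀ hε0] at this
  have hMpos : (0 : ℝ) < M := by
    by_contra hcon
    have h1 : (M : ℝ) = 0 := le_antisymm (not_lt.1 hcon) (Nat.cast_nonneg _)
    rw [h1, zero_mul] at hMlow
    have : 0 < 4 * ((h : ℝ) * t) := by positivity
    linarith
  have hMup : (M : ℝ) ≤ 4 * ((h : ℝ) * t) / ε + 1 := by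
    have := (Nat.ceil_lt_add_one (show 0 ≤ 4 * ((h : ℝ) * t) / ε by positivity)).le
    rwa [← hM] at this
  refine ⟨M, m, q, t, ?_, ?_, le_rfl, ?_, ?_⟩
  · rw [hm, Nat.ceil_pos]
    positivity
  · -- the union bound is small
    set s : ℕ := h * t with hs
    have hsR : ((s : ℕ) : ℝ) = h * t := by rw [hs]; push_cast; rfl
    have h1 : (1 - ε / 2) ^ M ≤ Real.exp (-(2 * s)) := by
      calc (1 - ε / 2) ^ M ≤ (Real.exp (-(ε / 2))) ^ M := by
            refine pow_le_pow_left₀ (by linarith) ?_ M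
            have := Real.add_one_le_exp (-(ε / 2))
            linarith
        _ = Real.exp (M * (-(ε / 2))) := by rw [← Real.exp_nat_mul]
        _ ≤ _ := by
            rw [Real.exp_le_exp, hsR]
            nlinarith
    have h2 : (2 : ℝ) ^ s ≤ Real.exp s := by
      calc (2 : ℝ) ^ s ≤ (Real.exp 1) ^ s := by
            refine pow_le_pow_left₀ (by norm_num) ?_ s
            have := Real.add_one_le_exp 1
            linarith
        _ = Real.exp s := by rw [← Real.exp_nat_mul, mul_one]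
    have h3 : (2 : ℝ) ^ s * (1 - ε / 2) ^ M ≤ Real.exp (-s) := by
      calc (2 : ℝ) ^ s * (1 - ε / 2) ^ M ≤ Real.exp s * Real.exp (-(2 * s)) :=
            mul_le_mul h2 h1 (pow_nonneg (by linarith) _) (Real.exp_pos _).le
        _ = _ := by rw [← Real.exp_add]; congr 1; ring
    have h4 : ((N : ℝ) + 1) ^ d ≤ Real.exp (d * Real.log (10 * (d : ℝ) ^ 2)) := by
      have h5 : (N : ℝ) + 1 ≤ 10 * (d : ℝ) ^ 2 := by exact_mod_cast hN
      calc ((N : ℝ) + 1) ^ d ≤ (10 * (d : ℝ) ^ 2) ^ d := pow_le_pow_left₀ (by positivity) h5 d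
        _ = (Real.exp (Real.log (10 * (d : ℝ) ^ 2))) ^ d := by rw [Real.exp_log (by positivity)]
        _ = _ := by rw [← Real.exp_nat_mul]
    have h5 : Real.log (10 * (d : ℝ) ^ 2) ≤ 3 + 2 * ((d : ℝ) ^ δ / δ) := by
      rw [Real.log_mul (by norm_num) (by positivity), Real.log_pow]
      have h6 : Real.log 10 ≤ 3 := by
        have h7 := ten_le_exp_three
        calc Real.log 10 ≤ Real.log (Real.exp 3) := Real.log_le_log (by norm_num) h7
          _ = 3 := Real.log_exp 3
      have h9 : Real.log d ≤ (d : ℝ) ^ δ / δ := Real.log_le_rpow_div (by positivity) hδpos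
      push_cast
      linarith
    have h6 : (d : ℝ) * Real.log (10 * (d : ℝ) ^ 2) + 3 ≤ s := by
      have h7 : (d : ℝ) * (d : ℝ) ^ δ = (d : ℝ) ^ (1 + δ) := by
        rw [Real.rpow_add hdpos, Real.rpow_one]
      have h8 : (d : ℝ) ≤ (d : ℝ) ^ (1 + δ) := by
        calc (d : ℝ) = (d : ℝ) ^ (1 : ℝ) := (Real.rpow_one _).symm
          _ ≤ _ := Real.rpow_le_rpow_of_exponent_le hdR (by linarith)
      have h9 : (d : ℝ) * Real.log (10 * (d : ℝ) ^ 2) ≤
          3 * (d : ℝ) ^ (1 + δ) + 2 * ((d : ℝ) ^ (1 + δ) / δ) := by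
        calc (d : ℝ) * Real.log (10 * (d : ℝ) ^ 2) ≤ d * (3 + 2 * ((d : ℝ) ^ δ / δ)) :=
              mul_le_mul_of_nonneg_left h5 hdpos.le
          _ = 3 * d + 2 * ((d * (d : ℝ) ^ δ) / δ) := by ring
          _ ≤ _ := by rw [h7]; linarith
      have h10 : (s : ℝ) = h * (10 * ((q : ℝ) + 1) ^ h) := by
        rw [hsR, ht]
        push_cast
        rfl
      have h11 : (2 : ℝ) ≤ h := by exact_mod_cast hh
      have h12 : 20 * Y ≤ s := by
        rw [h10]
        nlinarith
      have h13 : Y = (d : ℝ) ^ (1 + δ) + (d : ℝ) ^ (1 + δ) / δ := by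
        rw [hY, hC₀]
        ring
      have h14 : 0 ≤ (d : ℝ) ^ (1 + δ) / δ := by positivity
      linarith
    calc ((N : ℝ) + 1) ^ d * (2 ^ s * (1 - ε / 2) ^ M) ≤
          Real.exp (d * Real.log (10 * (d : ℝ) ^ 2)) * Real.exp (-s) :=
          mul_le_mul h4 h3 (mul_nonneg (by positivity) (pow_nonneg (by linarith) _))
            (Real.exp_pos _).le
      _ = Real.exp (d * Real.log (10 * (d : ℝ) ^ 2) + -s) := by rw [← Real.exp_add]
      _ ≤ Real.exp (-3) := Real.exp_le_exp.2 (by linarith)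
      _ ≤ 1 / 10 := by
          have h7 := ten_le_exp_three
          rw [Real.exp_neg, inv_eq_one_div]
          exact one_div_le_one_div_of_le (by norm_num) h7
  · have := Nat.le_ceil (10 * (M : ℝ) / (q + 1))
    rw [← hm, div_le_iff₀ hqpos] at this
    exact_mod_cast this
  · -- the number of samples
    have h1 : (m : ℝ) ≤ 10 * M / (q + 1) + 1 := by
      have := (Nat.ceil_lt_add_one (show 0 ≤ 10 * (M : ℝ) / (q + 1) by positivity)).le
      rwa [← hm] at this
    have hq1 : (1 : ℝ) ≤ (q : ℝ) + 1 := by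
      have : (0 : ℝ) ≤ q := Nat.cast_nonneg _
      linarith
    have hpow1 : (1 : ℝ) ≤ ((q : ℝ) + 1) ^ (h - 1) := one_le_pow₀ hq1
    have h2 : (m : ℝ) ≤ C₁ * ((q : ℝ) + 1) ^ (h - 1) := by
      have h3 : (t : ℝ) = 10 * (((q : ℝ) + 1) ^ (h - 1) * (q + 1)) := by
        rw [ht, ← pow_succ, Nat.sub_add_cancel (by omega)]
        push_cast
        rfl
      have h4 : 10 * (M : ℝ) / (q + 1) ≤ 400 * h / ε * ((q : ℝ) + 1) ^ (h - 1) + 10 := by
        rw [div_le_iff₀ hqpos]
        have h5 : 4 * ((h : ℝ) * t) / ε = 40 * h / ε * ((q : ℝ) + 1) ^ (h - 1) * (q + 1) := by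
          rw [h3]
          ring
        rw [h5] at hMup
        have h6 : 400 * h / ε * ((q : ℝ) + 1) ^ (h - 1) =
            10 * (40 * h / ε * ((q : ℝ) + 1) ^ (h - 1)) := by ring
        rw [h6]
        generalize 40 * h / ε * ((q : ℝ) + 1) ^ (h - 1) = a at hMup ⊢
        linarith
      rw [hC₁]
      linarith
    have h3 : ((q : ℝ) + 1) ^ (h - 1) ≤ 3 ^ (h - 1) * C₀ * (d : ℝ) ^ (1 - c) := by
      have h4 : ((q : ℝ) + 1) ^ (h - 1) ≤ (3 * Y ^ (1 / (h : ℝ))) ^ (h - 1) :=
        pow_le_pow_left₀ hqpos.le hqup _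
      refine h4.trans ?_
      rw [mul_pow, mul_assoc]
      refine mul_le_mul_of_nonneg_left ?_ (by positivity)
      have h5 : ((h - 1 : ℕ) : ℝ) = (h : ℝ) - 1 := by
        rw [Nat.cast_sub (by omega)]
        push_cast
        rfl
      have h6 : (1 / (h : ℝ)) * ((h : ℝ) - 1) = 1 - 1 / h := by
        field_simp
      have h7 : (Y ^ (1 / (h : ℝ))) ^ (h - 1) = Y ^ (1 - 1 / (h : ℝ)) := by
        rw [← Real.rpow_natCast, ← Real.rpow_mul (by linarith), h5, h6]
      have h8 : 0 ≤ 1 - 1 / (h : ℝ) := by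
        have : 1 / (h : ℝ) ≤ 1 := by
          rw [div_le_one hhpos]
          have : 1 ≤ h := by omega
          exact_mod_cast this
        linarith
      rw [h7, hY, Real.mul_rpow (by linarith) (by positivity), ← Real.rpow_mul hdpos.le]
      refine mul_le_mul ?_ ?_ (by positivity) (by linarith)
      · calc C₀ ^ (1 - 1 / (h : ℝ)) ≤ C₀ ^ (1 : ℝ) := by
              refine Real.rpow_le_rpow_of_exponent_le hC₀pos ?_
              have : 0 < 1 / (h : ℝ) := by positivity
              linarith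
          _ = C₀ := Real.rpow_one _
      · refine Real.rpow_le_rpow_of_exponent_le hdR ?_
        have h9 : 0 < 1 / (h : ℝ) := by positivity
        have h10 : c = 1 / h - δ := by rw [hδ]; ring
        rw [h10]
        nlinarith
    calc (m : ℝ) ≤ C₁ * ((q : ℝ) + 1) ^ (h - 1) := h2
      _ ≤ C₁ * (3 ^ (h - 1) * C₀ * (d : ℝ) ^ (1 - c)) := mul_le_mul_of_nonneg_left h3 hC₁pos.le
      _ = _ := by ring

/-! ### Graphs -/

section Graphs

variable {W : Type} [Fintype W] {H : SimpleGraph W} {n : ℕ}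

lemma graphOf_adj {f : Pairs n → Bool} {a b : Fin n} :
    (graphOf f).Adj a b ↔ ∃ h : ¬ (s(a, b)).IsDiag, f ⟨s(a, b), h⟩ = true := by
  unfold graphOf
  rw [SimpleGraph.fromEdgeSet_adj]
  constructor
  · rintro ⟨h, -⟩
    exact h
  · rintro ⟨h, hf⟩
    exact ⟨⟨h, hf⟩, fun hab => h (by rw [hab]; exact Sym2.mk_isDiag_iff.2 rfl)⟩

open Classical in
/-- The copies of `H`, as sets of pairs. -/
noncomputable def copies (H : SimpleGraph W) (n : ℕ) : Set (Finset (Pairs n)) :=
  {K | ∃ φ : W ↪ Fin n, K = univ.filter fun e : Pairs n => ∃ a b, H.Adj a b ∧ e.1 = s(φ a, φ b)}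

lemma hFree_eq : hFree H n = avoid (copies H n) := by
  classical
  ext f
  unfold hFree avoid
  rw [Set.mem_ofPred_eq, Set.mem_ofPred_eq, SimpleGraph.Free,
    SimpleGraph.isContained_iff_exists_le_comap]
  constructor
  · intro h K hK
    obtain ⟨φ, rfl⟩ := hK
    by_contra hcon
    push Not at hcon
    refine h ⟨φ, ?_⟩
    intro a b hab
    rw [SimpleGraph.comap_adj, graphOf_adj]
    have hne : φ a ≠ φ b := fun h => hab.ne (φ.injective h)
    have hd : ¬ (s(φ a, φ b)).IsDiag := by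
      rw [Sym2.mk_isDiag_iff]
      exact hne
    refine ⟨hd, ?_⟩
    have := hcon ⟨s(φ a, φ b), hd⟩ (mem_filter.2 ⟨mem_univ _, a, b, hab, rfl⟩)
    rwa [ne_eq, Bool.not_eq_false] at this
  · rintro h ⟨φ, hφ⟩
    obtain ⟨e, he, hfe⟩ := h _ ⟨φ, rfl⟩
    rw [mem_filter] at he
    obtain ⟨-, a, b, hab, hes⟩ := he
    have h1 := hφ hab
    rw [SimpleGraph.comap_adj, graphOf_adj] at h1
    obtain ⟨hd, hf⟩ := h1
    have h2 : e = ⟨s(φ a, φ b), hd⟩ := Subtype.ext hes
    rw [h2, hf] at hfe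
    exact absurd hfe (by decide)

lemma card_copies {K : Finset (Pairs n)} (hK : K ∈ copies H n) : K.card = H.edgeSet.ncard := by
  classical
  obtain ⟨φ, rfl⟩ := hK
  rw [← Set.ncard_image_of_injective _ (Sym2.map.injective φ.injective), ← Set.ncard_coe_finset,
    ← Set.ncard_image_of_injective _ (Subtype.val_injective (p := fun e : Sym2 (Fin n) =>
      ¬ e.IsDiag))]
  congr 1
  ext e
  constructor
  · rintro ⟨e', he', rfl⟩
    rw [mem_coe, mem_filter] at he'
    obtain ⟨-, a, b, hab, hes⟩ := he'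
    exact ⟨s(a, b), hab, by rw [hes]; rfl⟩
  · rintro ⟨e', he', rfl⟩
    induction e' using Sym2.ind with
    | _ a b =>
      rw [SimpleGraph.mem_edgeSet] at he'
      have hne : φ a ≠ φ b := fun h => he'.ne (φ.injective h)
      have hd : ¬ (s(φ a, φ b)).IsDiag := by
        rw [Sym2.mk_isDiag_iff]
        exact hne
      exact ⟨⟨s(φ a, φ b), hd⟩, by
        rw [mem_coe, mem_filter]; exact ⟨mem_univ _, a, b, he', rfl⟩, rfl⟩

omit [Fintype W] in
lemma card_ones_le {g : Pairs n → Bool} (hg : g ∈ hFree H n) :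
    (univ.filter fun e => g e = true).card ≤ SimpleGraph.extremalNumber n H := by
  classical
  have h1 := SimpleGraph.card_edgeFinset_le_extremalNumber (H := H) (G := graphOf g) hg
  rw [Fintype.card_fin] at h1
  refine le_trans ?_ h1
  refine card_le_card_of_injOn (fun e => e.1) ?_ ?_
  · intro e he
    rw [mem_coe, mem_filter] at he
    rw [mem_coe, SimpleGraph.mem_edgeFinset]
    obtain ⟨⟨e, hd⟩, hes⟩ : ∃ e', e' = e := ⟨e, rfl⟩
    subst hes
    induction e using Sym2.ind with
    | _ a b =>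
      rw [SimpleGraph.mem_edgeSet, graphOf_adj]
      exact ⟨hd, he.2⟩
  · intro a _ b _ hab
    exact Subtype.ext hab

/-- A connected graph with at least two edges has a vertex with two neighbours. -/
lemma exists_cherry (hconn : H.Connected) (h2 : 2 ≤ H.edgeSet.ncard) :
    ∃ a b c, H.Adj a b ∧ H.Adj a c ∧ b ≠ c := by
  by_contra hcon
  push Not at hcon
  have hfin : H.edgeSet.Finite := Set.toFinite _
  obtain ⟨e1, e2, he1, he2, hne⟩ := (Set.one_lt_ncard_iff hfin).1 (by omega)
  induction e1 using Sym2.ind with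
  | _ a b =>
    induction e2 using Sym2.ind with
    | _ c d =>
      rw [SimpleGraph.mem_edgeSet] at he1 he2
      have hreach : ∀ v, H.Reachable a v → v = a ∨ v = b := by
        intro v hv
        rw [SimpleGraph.reachable_iff_reflTransGen] at hv
        induction hv with
        | refl => exact Or.inl rfl
        | tail _ hadj ih =>
          rcases ih with rfl | rfl
          · exact Or.inr (hcon _ _ _ hadj he1)
          · exact Or.inl (hcon _ _ _ hadj he1.symm)
      have hc := hreach c (hconn.preconnected a c)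
      have hd := hreach d (hconn.preconnected a d)
      apply hne
      have hcd := he2.ne
      rcases hc with rfl | rfl <;> rcases hd with rfl | rfl
      · exact absurd rfl hcd
      · rfl
      · exact Sym2.eq_swap
      · exact absurd rfl hcd

/-- The extremal number is at least linear. -/
lemma le_extremalNumber (hconn : H.Connected) (h2 : 2 ≤ H.edgeSet.ncard) :
    n / 2 ≤ SimpleGraph.extremalNumber n H := by
  classical
  obtain ⟨a, b, c, hab, hac, hbc⟩ := exists_cherry hconn h2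
  -- the matching
  let G : SimpleGraph (Fin n) :=
    { Adj := fun i j => i ≠ j ∧ i.val / 2 = j.val / 2
      symm := ⟨fun i j h => ⟨h.1.symm, h.2.symm⟩⟩
      loopless := ⟨fun i h => h.1 rfl⟩ }
  have hG : H.Free G := by
    intro hcon
    rw [SimpleGraph.isContained_iff_exists_le_comap] at hcon
    obtain ⟨φ, hφ⟩ := hcon
    have h3 : φ a ≠ φ b ∧ (φ a).val / 2 = (φ b).val / 2 := hφ hab
    have h4 : φ a ≠ φ c ∧ (φ a).val / 2 = (φ c).val / 2 := hφ hac
    have h5 : φ b ≠ φ c := fun h => hbc (φ.injective h)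
    have h6 : (φ a).val ≠ (φ b).val := fun h => h3.1 (Fin.ext h)
    have h7 : (φ a).val ≠ (φ c).val := fun h => h4.1 (Fin.ext h)
    have h8 : (φ b).val ≠ (φ c).val := fun h => h5 (Fin.ext h)
    omega
  have h3 := SimpleGraph.card_edgeFinset_le_extremalNumber (H := H) (G := G) hG
  rw [Fintype.card_fin] at h3
  refine le_trans ?_ h3
  calc n / 2 = (univ : Finset (Fin (n / 2))).card := by rw [card_univ, Fintype.card_fin]
    _ ≤ _ := by
      refine card_le_card_of_injOn (fun k : Fin (n / 2) =>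
        s((⟨2 * k.val, by omega⟩ : Fin n), (⟨2 * k.val + 1, by omega⟩ : Fin n))) ?_ ?_
      · intro k _
        rw [mem_coe, SimpleGraph.mem_edgeFinset, SimpleGraph.mem_edgeSet]
        refine ⟨fun h => ?_, ?_⟩
        · have := congrArg Fin.val h
          simp only at this
          omega
        · simp only
          omega
      · intro k _ l _ hkl
        simp only [Sym2.eq_iff, Fin.mk.injEq] at hkl
        apply Fin.ext
        omega

lemma card_pairs_le : Fintype.card (Pairs n) ≤ n ^ 2 := by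
  calc Fintype.card (Pairs n) ≤ Fintype.card (Sym2 (Fin n)) := Fintype.card_subtype_le _
    _ ≤ Fintype.card (Fin n × Fin n) :=
        Fintype.card_le_of_surjective (fun p : Fin n × Fin n => s(p.1, p.2))
          (fun e => Sym2.ind (fun a b => ⟨(a, b), rfl⟩) e)
    _ = n ^ 2 := by rw [Fintype.card_prod, Fintype.card_fin, sq]

end Graphs

/-- **Testing `H`-freeness with `ex(n, H) ^ (1 - c)` samples.** -/
theorem result {W : Type} [Fintype W] (H : SimpleGraph W) (hconn : H.Connected)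
    (h2 : 2 ≤ H.edgeSet.ncard) :
    ∀ c : ℝ, 0 < c → c < 1 / (H.edgeSet.ncard : ℝ) → ∀ ε : ℝ, 0 < ε → ε < 1 →
      ∃ C : ℝ, ∀ n : ℕ, 2 ≤ n → ∃ m : ℕ, IsSam (hFree H n) ε m ∧
        (m : ℝ) ≤ C * (SimpleGraph.extremalNumber n H : ℝ) ^ (1 - c) := by
  classical
  intro c _ hc1 ε hε0 hε1
  obtain ⟨C, -, hC⟩ := params h2 hc1 hε0 hε1
  refine ⟨C, fun n hn => ?_⟩
  set d := SimpleGraph.extremalNumber n H with hd
  have hdn : n / 2 ≤ d := le_extremalNumber hconn h2
  have hd1 : 1 ≤ d := by omega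
  have hN : Fintype.card (Pairs n) + 1 ≤ 10 * d ^ 2 := by
    have h3 := card_pairs_le (n := n)
    have h4 : n ≤ 3 * d := by omega
    have h5 : n ^ 2 ≤ (3 * d) ^ 2 := Nat.pow_le_pow_left h4 2
    nlinarith
  obtain ⟨M, m, q, t, hm0, h3, h4, h5, h6⟩ := hC d _ hd1 hN
  have htest : IsTester (hFree H n) ε (tester (copies H n) m) := by
    rw [hFree_eq]
    refine isTester (by linarith) (by omega) (fun K hK => card_copies hK) ?_ h3 h4 h5
    intro g hg
    rw [← hFree_eq] at hg
    exact card_ones_le hg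
  set S : Set ℕ := {k : ℕ | 0 < k ∧ ∃ A : (Fin k → Pairs n × Bool) → ℝ,
    IsTester (hFree H n) ε A} with hS
  have hmS : m ∈ S := ⟨hm0, _, htest⟩
  refine ⟨sInf S, ⟨Nat.sInf_mem ⟨m, hmS⟩, fun k hk => Nat.sInf_le hk⟩, ?_⟩
  have h7 : ((sInf S : ℕ) : ℝ) ≤ m := by exact_mod_cast Nat.sInf_le hmS
  exact h7.trans h6

end Pool.Agent.Results.MP_c13ef9_lc.HFreeSamples
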